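import Pool.Agent.N929.OM.Stm

/-!
# Project OM (helper929), part PAT (helper401): the faces of the pattern
-/

set_option autoImplicit false
set_option linter.all false

namespace Pool.Agent.N401.OM

open Finset Pool.Agent.N929.ON Pool.Agent.N929.OM
open scoped Classical

theorem pat : S_PAT := by
  rintro k ⟨⟨x, y⟩, j⟩ hk hs h1 h2
  rcases hs with ⟨h3, h4⟩ | ⟨h3, h4, h5⟩ | ⟨h3, h4, h5⟩
  · change j = 0 at h3
    subst h3
    simp only [Q, rt, dir] at h1 h2 h4
    simp [Prod.mk_add_mk] at h1 h2 h4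
    refine ⟨?_, ?_, ?_, ?_, ?_, ?_, ?_⟩
    · simp [pls, mns, mid, Q, Prod.mk_add_mk]
      omega
    · simp [pls, mns, mid, Prod.mk_add_mk]
    · simp [mid]
      omega
    · simp [pls, Prod.mk_add_mk]
      omega
    · simp [mns, Prod.mk_add_mk]
      omega
    · simp [nx, front, Q, dir, Prod.mk_add_mk]
      omega
    · simp [pls, mns, Prod.mk_add_mk]
  · change j = 2 at h3
    subst h3
    change 0 ≤ y at h5
    simp only [Q, rt, dir] at h1 h2 h4
    simp [Prod.mk_add_mk] at h1 h2 h4
    refine ⟨?_, ?_, ?_, ?_, ?_, ?_, ?_⟩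
    · simp [pls, mns, mid, Q, Prod.mk_add_mk]
      omega
    · simp [pls, mns, mid, Prod.mk_add_mk]
    · simp [mid]
      omega
    · simp [pls, Prod.mk_add_mk]
      omega
    · simp [mns, Prod.mk_add_mk]
      omega
    · simp [nx, front, Q, dir, Prod.mk_add_mk]
      omega
    · simp [pls, mns, Prod.mk_add_mk]
  · change j = 4 at h3
    subst h3
    change 1 ≤ y at h5
    simp only [Q, rt, dir] at h1 h2 h4
    simp [Prod.mk_add_mk] at h1 h2 h4
    refine ⟨?_, ?_, ?_, ?_, ?_, ?_, ?_⟩
    · simp [pls, mns, mid, Q, Prod.mk_add_mk]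
      omega
    · simp [pls, mns, mid, Prod.mk_add_mk]
    · simp [mid]
      omega
    · simp [pls, Prod.mk_add_mk]
      omega
    · simp [mns, Prod.mk_add_mk]
      omega
    · simp [nx, front, Q, dir, Prod.mk_add_mk]
      omega
    · simp [pls, mns, Prod.mk_add_mk]

end Pool.Agent.N401.OM
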